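import Mathlib
import Pool.Agent.W307.RS.FinalD

set_option autoImplicit false

namespace Pool.Agent.W701.FK

open Finset Pool.Agent.W262.RK Pool.Agent.W307.RT Pool.Agent.W307.RS

/-- from the bounds of the sums to the averages -/
lemma finalD_abs {m k : ℕ} (hk : 1 ≤ k) (f : ℤ × ℤ → ℝ) (hM : MDL) (hL : LOW m k) (C : ℝ)
    (hC : 0 ≤ C) (C0 : ℕ) (hC0 : 1 ≤ C0) (hone' : ∀ Z, ∀ c ∈ DvS m Z, 1 ≤ f c)
    (hsum : ∀ Z W : ℕ, 1 ≤ W → C0 * Z ≤ W ^ k → ∀ S : Finset (ℤ × ℤ),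
      (S : Set (ℤ × ℤ)) ⊆ DvS m Z → ∑ x ∈ S, f x ≤ C * (W : ℝ) ^ 2) :
    ∃ C : ℝ, ∀ Z : ℕ, (DvS m Z).Finite ∧ ∀ S : Finset (ℤ × ℤ), (S : Set (ℤ × ℤ)) = DvS m Z →
      ∑ c ∈ S, f c ≤ C * S.card := by
  classical
  obtain ⟨c, C1, T0, hc, hlow⟩ := hL
  set D := C0 * (32 * C1) + 1 with hD
  have hD1 : 1 ≤ D := by omega
  have hone : ∀ Z : ℕ, ∀ S : Finset (ℤ × ℤ), (S : Set (ℤ × ℤ)) ⊆ DvS m Z → (S.card : ℝ) ≤
      ∑ x ∈ S, f x := by
    intro Z S hS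
    have h1 : ∑ x ∈ S, (1 : ℝ) = S.card := by simp
    rw [← h1]
    exact sum_le_sum fun x hx => hone' Z x (hS hx)
  -- the choice of `W`
  have hWex : ∀ Z : ℕ, ∃ T : ℕ, T ^ k ≤ C0 * Z ∧ C0 * Z ≤ (T + 1) ^ k := by
    intro Z
    refine ⟨Nat.findGreatest (fun t => t ^ k ≤ C0 * Z) (C0 * Z), ?_, ?_⟩
    · exact Nat.findGreatest_spec (P := fun t => t ^ k ≤ C0 * Z) (Nat.zero_le _)
        (by rw [zero_pow (by omega)]; exact Nat.zero_le _)
    · by_contra hcon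
      push Not at hcon
      have h1 : Nat.findGreatest (fun t => t ^ k ≤ C0 * Z) (C0 * Z) + 1 ≤
          Nat.findGreatest (fun t => t ^ k ≤ C0 * Z) (C0 * Z) := by
        apply Nat.le_findGreatest
        · exact (Nat.le_self_pow (by omega) _).trans hcon.le
        · exact hcon.le
      omega
  have hfin : ∀ Z : ℕ, (DvS m Z).Finite := by
    intro Z
    obtain ⟨T, _, h2⟩ := hWex Z
    by_contra hinf
    obtain ⟨n, hn⟩ := exists_nat_gt (C * ((T + 1 : ℕ) : ℝ) ^ 2)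
    obtain ⟨S, hS, hcard⟩ := Set.Infinite.exists_subset_card_eq hinf n
    have h3 := (hone Z S hS).trans (hsum Z (T + 1) (by omega) h2 S hS)
    rw [hcard] at h3
    linarith
  refine ⟨C * ((D * (T0 + 1) + 1 : ℕ) : ℝ) ^ 2 + C * (4 * (D : ℝ)) ^ 2 / c, fun Z => ⟨hfin Z, ?_⟩⟩
  intro S hS
  set K := S.card with hK
  by_cases hK0 : K = 0
  · have : S = ∅ := card_eq_zero.1 hK0
    rw [this, sum_empty, hK0]
    simp
  have hK1 : (1 : ℝ) ≤ K := by exact_mod_cast Nat.one_le_iff_ne_zero.2 hK0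
  have hq0 : 0 ≤ C * (4 * (D : ℝ)) ^ 2 / c := by positivity
  have hr0 : 0 ≤ C * ((D * (T0 + 1) + 1 : ℕ) : ℝ) ^ 2 := by positivity
  obtain ⟨T, hTk, hTW⟩ := hWex Z
  rcases Nat.lt_or_ge T (D * (T0 + 1)) with hlt | hge
  · have h1 := hsum Z (D * (T0 + 1) + 1) (by omega)
      (hTW.trans (Nat.pow_le_pow_left (by omega) k)) S hS.le
    calc _ ≤ C * ((D * (T0 + 1) + 1 : ℕ) : ℝ) ^ 2 := h1
      _ ≤ C * ((D * (T0 + 1) + 1 : ℕ) : ℝ) ^ 2 * K := le_mul_of_one_le_right hr0 hK1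
      _ ≤ _ := by
        apply mul_le_mul_of_nonneg_right _ (by linarith)
        linarith
  · have h1 := hsum Z (T + 1) (by omega) hTW S hS.le
    set T' := T / D with hT'
    have hT'0 : T0 + 1 ≤ T' := by
      rw [hT', Nat.le_div_iff_mul_le hD1, mul_comm]
      exact hge
    have h2 : T' * D ≤ T := Nat.div_mul_le_self T D
    have h3 : 32 * (C1 * T' ^ k) ≤ Z := by
      have a1 : (T' * D) ^ k ≤ C0 * Z := (Nat.pow_le_pow_left h2 k).trans hTk
      rw [mul_pow] at a1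
      have a2 : D ≤ D ^ k := Nat.le_self_pow (by omega) D
      have a3 : T' ^ k * (C0 * (32 * C1)) ≤ C0 * Z :=
        (Nat.mul_le_mul_left _ (by omega : C0 * (32 * C1) ≤ D ^ k)).trans a1
      have a4 : C0 * (32 * (C1 * T' ^ k)) ≤ C0 * Z := by
        calc C0 * (32 * (C1 * T' ^ k)) = T' ^ k * (C0 * (32 * C1)) := by ring
          _ ≤ _ := a3
      exact Nat.le_of_mul_le_mul_left a4 (by omega)
    have h4 := hlow T' (C1 * T' ^ k) (by omega) le_rfl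
    have h4' : (Cv m (C1 * T' ^ k)).card ≤ K := by
      apply card_le_card
      rw [← coe_subset, hS]
      exact Cv_sub hM m _ Z h3
    have h4'' : c * (T' : ℝ) ^ 2 ≤ K := h4.trans (by exact_mod_cast h4')
    have h5 : T + 1 ≤ 4 * D * T' := by
      have a1 : T < D * (T' + 1) := by
        rw [mul_comm]
        exact Nat.lt_mul_of_div_lt (by rw [← hT']; omega) hD1
      have a2 : D * (T' + 1) ≤ 2 * D * T' := by nlinarith
      have a3 : 2 * D * T' ≤ 4 * D * T' := by nlinarith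
      omega
    have h6 : ((T + 1 : ℕ) : ℝ) ≤ 4 * D * T' := by exact_mod_cast h5
    calc _ ≤ C * ((T + 1 : ℕ) : ℝ) ^ 2 := h1
      _ ≤ C * (4 * D * T') ^ 2 := by
        apply mul_le_mul_of_nonneg_left _ hC
        exact pow_le_pow_left₀ (Nat.cast_nonneg _) h6 2
      _ = C * (4 * (D : ℝ)) ^ 2 / c * (c * (T' : ℝ) ^ 2) := by
        field_simp
      _ ≤ C * (4 * (D : ℝ)) ^ 2 / c * K := mul_le_mul_of_nonneg_left h4'' hq0
      _ ≤ _ := by
        apply mul_le_mul_of_nonneg_right _ (by linarith)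
        linarith

end Pool.Agent.W701.FK
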