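import Mathlib
import Pool.Agent.W307.FK.Stm
import Pool.Agent.W701.FK.Find1
import Pool.Agent.W554.RS.MDL
import Pool.Agent.W612.SE.Seld
import Pool.Agent.W405.SE.GoodP
import Pool.Agent.W407.SE.Ratp
import Pool.Agent.W597.SE.SELC

set_option autoImplicit false

namespace Pool.Agent.W701.FK

open Finset Pool.Agent.W262.RK Pool.Agent.W307.RT Pool.Agent.W307.RS Pool.Agent.W307.SE
  Pool.Agent.W307.FK

theorem seld' : SELD := Pool.Agent.W612.SE.seld_of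
  (Pool.Agent.W405.SE.goodp_of Pool.Agent.W407.SE.ratp)

lemma sel_fin' {A B : ℤ} (hA : A ≠ 0) (hB : B ≠ 0) (hAB : A ≠ B) :
    (Sel A B).Finite := by
  refine (seld' 1 (fun _ _ _ _ _ => True) A B hA hB hAB odd_one squarefree_one
    (fun p hp hp1 => ?_) (fun p hp hp1 => ?_)).1
  · exact absurd (Nat.dvd_one.1 hp1) hp.one_lt.ne'
  · exact absurd (Nat.dvd_one.1 hp1) hp.out.one_lt.ne'

lemma SS_nonneg (D : ℤ) (t : ℤ × ℤ) : 0 ≤ SS D t := by
  unfold SS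
  split_ifs
  · positivity
  · exact le_rfl

lemma curve_data {A B e1 e2 e3 M N : ℤ} {g : ℕ} (hD : 4 * A ^ 3 + 27 * B ^ 2 ≠ 0)
    (hr : ∀ x : ℤ, x ^ 3 + A * x + B = (x - e1) * (x - e2) * (x - e3)) (hg : 1 ≤ g)
    (hM : M ≠ 0) (hN : N ≠ 0) (hMN : M ≠ N) (hco : IsCoprime M N) (h21 : e2 - e1 = g * M)
    (h31 : e3 - e1 = g * N) :
    (SelR A B).Finite ∧ ((SelR A B).ncard : ℝ) ^ 2 ≤ SS g (M, N) ∧
      16 * (g ^ 3 * (M * N * (M - N)).natAbs) ^ 2 = (16 * (4 * A ^ 3 + 27 * B ^ 2)).natAbs := by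
  have hg0 : (g : ℤ) ≠ 0 := by
    have : g ≠ 0 := by omega
    exact_mod_cast this
  have hfin : (Sel (g * M) (g * N)).Finite := sel_fin' (mul_ne_zero hg0 hM) (mul_ne_zero hg0 hN)
    (fun h => hMN (mul_left_cancel₀ hg0 h))
  obtain ⟨f1, f2⟩ := Pool.Agent.W597.SE.selc A B e1 e2 e3 (g * M) (g * N) 1 hD hr one_ne_zero
    (by rw [h21]; push_cast; ring) (by rw [h31]; push_cast; ring) hfin
  refine ⟨f1, ?_, ?_⟩
  · unfold SS
    rw [if_pos ⟨hco, hM, hN, hMN⟩]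
    exact pow_le_pow_left₀ (Nat.cast_nonneg _) (by exact_mod_cast f2) 2
  · have h0 := hr 0
    have h1 := hr 1
    have h2 := hr (-1)
    have hs : e1 + e2 + e3 = 0 := by linarith
    have hA : A = e1 * e2 + e1 * e3 + e2 * e3 := by linarith
    have hB : B = -(e1 * e2 * e3) := by linarith
    have he3 : e3 = -e1 - e2 := by linarith
    have hdisc : 4 * A ^ 3 + 27 * B ^ 2 = -((e2 - e1) * (e3 - e1) * (e2 - e1 - (e3 - e1))) ^ 2 := by
      rw [hA, hB, he3]; ring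
    have e : (16 * (4 * A ^ 3 + 27 * B ^ 2) : ℤ)
        = -(16 * ((g : ℤ) ^ 3 * (M * N * (M - N))) ^ 2) := by
      rw [hdisc, h21, h31]
      ring
    rw [e]
    simp only [Int.natAbs_neg, Int.natAbs_mul, Int.natAbs_pow, Int.natAbs_natCast]
    norm_num

theorem find_of (h1 : Pool.Agent.W307.FK.REGN) (h2 : Pool.Agent.W307.FK.SOM)
    (h3 : Pool.Agent.W307.FK.PARF) (h4 : Pool.Agent.W307.RT.LOW 2 6)
    (h5 : Pool.Agent.W307.FK.RKS) : Pool.Agent.W307.FK.FIND := by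
  classical
  obtain ⟨C1, hC1, hb⟩ := h1
  obtain ⟨C2, hC2, hsom⟩ := h2
  obtain ⟨F, hinj, hF⟩ := h3
  have hMDL : MDL := Pool.Agent.W554.RS.mdl
  -- the properties of the curves
  have key : ∀ Z, ∀ c ∈ DvS 2 Z, 1 ≤ (F c).1 ∧ (SelR c.1 c.2).Finite ∧
      ((SelR c.1 c.2).ncard : ℝ) ^ 2 ≤ SS (F c).1 (F c).2 ∧ (F c).2.1 ≠ 0 ∧ (F c).2.2 ≠ 0 ∧
      (F c).2.1 ≠ (F c).2.2 ∧
      ((F c).1 ^ 3 * ((F c).2.1 * (F c).2.2 * ((F c).2.1 - (F c).2.2)).natAbs) ^ 2 ≤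
        6 ^ 12 * Z ∧ (1 : ℝ) ≤ ((SelR c.1 c.2).ncard : ℝ) ^ 2 := by
    intro Z c hc
    obtain ⟨d1, d2, d3, d4⟩ := hc
    obtain ⟨g1, g2, g3, g4, g5, e1, e2, e3, g6, g7, g8⟩ := hF c d1 d3
    obtain ⟨a1, a2, a3⟩ := curve_data d1 g6 g1 g3 g4 g5 g2 g7 g8
    refine ⟨g1, a1, a2, g3, g4, g5, ?_, ?_⟩
    · have b1 := (hMDL c.1 c.2 d1 d2).1
      rw [← a3] at b1
      have b2 : 6 ^ 12 * mD (Sh c.1 c.2) ≤ 6 ^ 12 * Z := Nat.mul_le_mul_left _ d4
      omega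
    · have b1 := h5 c.1 c.2 e1 e2 e3 d1 g6 a1
      have b2 : 1 ≤ (SelR c.1 c.2).ncard := le_trans Nat.one_le_two_pow b1
      have b3 : (1 : ℝ) ≤ (SelR c.1 c.2).ncard := by exact_mod_cast b2
      exact one_le_pow₀ b3
  have hsum : ∀ Z W : ℕ, 1 ≤ W → 6 ^ 12 * Z ≤ W ^ 6 → ∀ S : Finset (ℤ × ℤ),
      (S : Set (ℤ × ℤ)) ⊆ DvS 2 Z →
      ∑ x ∈ S, ((SelR x.1 x.2).ncard : ℝ) ^ 2 ≤ (4 * C1 * C2) * (W : ℝ) ^ 2 := by
    intro Z W hW hZW S hS
    have hS' : (S : Set (ℤ × ℤ)) ⊆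
        {c | 4 * c.1 ^ 3 + 27 * c.2 ^ 2 ≠ 0 ∧ HasT 2 (Sh c.1 c.2)} := fun c hc =>
      ⟨(hS hc).1, (hS hc).2.2.1⟩
    -- size
    have hsize : ∀ c ∈ S, (F c).1 ^ 3 *
        ((F c).2.1 * (F c).2.2 * ((F c).2.1 - (F c).2.2)).natAbs ≤ W ^ 3 := by
      intro c hc
      obtain ⟨_, _, _, _, _, _, k1, _⟩ := key Z c (hS hc)
      have k2 : ((F c).1 ^ 3 * ((F c).2.1 * (F c).2.2 *
          ((F c).2.1 - (F c).2.2)).natAbs) ^ 2 ≤ (W ^ 3) ^ 2 := by
        calc _ ≤ 6 ^ 12 * Z := k1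
          _ ≤ W ^ 6 := hZW
          _ = (W ^ 3) ^ 2 := by ring
      exact (Nat.pow_le_pow_iff_left (by norm_num)).1 k2
    have hgW : ∀ c ∈ S, (F c).1 ∈ Icc 1 W := by
      intro c hc
      obtain ⟨k0, _, _, k3, k4, k5, _, _⟩ := key Z c (hS hc)
      rw [mem_Icc]
      refine ⟨k0, ?_⟩
      have k6 : 1 ≤ ((F c).2.1 * (F c).2.2 * ((F c).2.1 - (F c).2.2)).natAbs := by
        rw [Nat.one_le_iff_ne_zero, Ne, Int.natAbs_eq_zero]
        exact mul_ne_zero (mul_ne_zero k3 k4) (sub_ne_zero.2 k5)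
      have k7 : (F c).1 ^ 3 ≤ W ^ 3 := (Nat.le_mul_of_pos_right _ k6).trans (hsize c hc)
      exact (Nat.pow_le_pow_iff_left (by norm_num)).1 k7
    have e1 : ∑ x ∈ S, ((SelR x.1 x.2).ncard : ℝ) ^ 2 ≤ ∑ x ∈ S, SS (F x).1 (F x).2 :=
      sum_le_sum fun x hx => (key Z x (hS hx)).2.2.1
    have e2 : ∑ x ∈ S, SS (F x).1 (F x).2 = ∑ t ∈ S.image F, SS t.1 t.2 := by
      rw [sum_image (hinj.mono hS')]
    have e3 : ∑ g ∈ Icc 1 W, ∑ t ∈ (S.image F).filter (fun t => t.1 = g), SS t.1 t.2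
        = ∑ t ∈ S.image F, SS t.1 t.2 := by
      apply sum_fiberwise_of_maps_to
      intro t ht
      obtain ⟨c, hc, rfl⟩ := mem_image.1 ht
      exact hgW c hc
    have e4 : ∀ g ∈ Icc 1 W, ∑ t ∈ (S.image F).filter (fun t => t.1 = g), SS t.1 t.2 ≤
        (4 * C1 * (W : ℝ) ^ 2) * ((128 : ℝ) ^ g.primeFactors.card / (g : ℝ) ^ 2) := by
      intro g hg
      rw [mem_Icc] at hg
      have f1 : ∑ t ∈ (S.image F).filter (fun t => t.1 = g), SS t.1 t.2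
          = ∑ t ∈ ((S.image F).filter (fun t => t.1 = g)).image Prod.snd, SS g t := by
        rw [sum_image]
        · apply sum_congr rfl
          intro t ht
          rw [(mem_filter.1 ht).2]
        · intro t ht t' ht' htt
          have q1 := (mem_filter.1 ht).2
          have q2 := (mem_filter.1 ht').2
          exact Prod.ext (q1.trans q2.symm) htt
      rw [f1]
      have hgz : (g : ℤ) ≠ 0 := by
        have : g ≠ 0 := by omega
        exact_mod_cast this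
      have f2 := hb g hgz (W / g + 1) (Nat.le_add_left 1 _)
        (((S.image F).filter (fun t => t.1 = g)).image Prod.snd) (by
        intro t ht
        obtain ⟨t', ht', rfl⟩ := mem_image.1 ht
        obtain ⟨ht1, ht2⟩ := mem_filter.1 ht'
        obtain ⟨c, hc, rfl⟩ := mem_image.1 ht1
        obtain ⟨k0, _, _, k3, k4, k5, _, _⟩ := key Z c (hS hc)
        refine ⟨k3, k4, k5, ?_⟩
        have q1 := hsize c hc
        rw [ht2] at q1
        have q2 : W < g * (W / g + 1) := Nat.lt_mul_div_succ W (by omega)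
        have q3 : W ^ 3 < (g * (W / g + 1)) ^ 3 := Nat.pow_lt_pow_left q2 (by norm_num)
        rw [mul_pow] at q3
        exact (Nat.lt_of_mul_lt_mul_left (q1.trans_lt q3)).le)
      rw [Int.natAbs_natCast] at f2
      refine f2.trans ?_
      have hgr : (0 : ℝ) < g := by
        have : 0 < g := by omega
        exact_mod_cast this
      have f3 : ((W / g + 1 : ℕ) : ℝ) ≤ 2 * W / g := by
        push_cast
        have r1 : ((W / g : ℕ) : ℝ) ≤ (W : ℝ) / g := Nat.cast_div_le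
        have r2 : (1 : ℝ) ≤ (W : ℝ) / g := by
          rw [one_le_div hgr]
          exact_mod_cast hg.2
        have r3 : 2 * (W : ℝ) / g = (W : ℝ) / g + (W : ℝ) / g := by ring
        rw [r3]
        exact add_le_add r1 r2
      have f4 : ((W / g + 1 : ℕ) : ℝ) ^ 2 ≤ (2 * W / g) ^ 2 :=
        pow_le_pow_left₀ (Nat.cast_nonneg _) f3 2
      calc C1 * 128 ^ g.primeFactors.card * ((W / g + 1 : ℕ) : ℝ) ^ 2
          ≤ C1 * 128 ^ g.primeFactors.card * (2 * W / g) ^ 2 :=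
            mul_le_mul_of_nonneg_left f4 (by positivity)
        _ = _ := by
            field_simp
            ring
    calc ∑ x ∈ S, ((SelR x.1 x.2).ncard : ℝ) ^ 2 ≤ ∑ t ∈ S.image F, SS t.1 t.2 := by
          rw [← e2]; exact e1
      _ = ∑ g ∈ Icc 1 W, ∑ t ∈ (S.image F).filter (fun t => t.1 = g), SS t.1 t.2 := e3.symm
      _ ≤ ∑ g ∈ Icc 1 W, (4 * C1 * (W : ℝ) ^ 2) *
          ((128 : ℝ) ^ g.primeFactors.card / (g : ℝ) ^ 2) := sum_le_sum e4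
      _ = (4 * C1 * (W : ℝ) ^ 2) * ∑ g ∈ Icc 1 W,
          ((128 : ℝ) ^ g.primeFactors.card / (g : ℝ) ^ 2) := by rw [mul_sum]
      _ ≤ (4 * C1 * (W : ℝ) ^ 2) * C2 := mul_le_mul_of_nonneg_left (hsom W) (by positivity)
      _ = _ := by ring
  obtain ⟨C, hC⟩ := finalD_abs (m := 2) (k := 6) (by norm_num)
    (fun c => ((SelR c.1 c.2).ncard : ℝ) ^ 2) hMDL h4 (4 * C1 * C2) (by positivity) (6 ^ 12)
    (by norm_num) (fun Z c hc => (key Z c hc).2.2.2.2.2.2.2) hsum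
  exact ⟨C, fun Z => ⟨(hC Z).1, fun c hc => (key Z c hc).2.1, (hC Z).2⟩⟩

end Pool.Agent.W701.FK
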